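import Pool.Agent.Helper33.HM.Tools

/-!
# Rasiowa-Sikorski
-/

set_option autoImplicit false

namespace Pool.Agent.Helper33.HM

universe u

variable {B : Type u} [CompleteBooleanAlgebra B]

/-- One step of the construction: decide one supremum and one infimum. -/
theorem h40_step (J : Set B) {b : B} (hb : b ≠ ⊥) :
    ∃ c : B, c ≠ ⊥ ∧ c ≤ b ∧ (c ≤ (sSup J)ᶜ ∨ ∃ a ∈ J, c ≤ a) ∧
      (c ≤ sInf J ∨ ∃ a ∈ J, c ≤ aᶜ) := by
  obtain ⟨c, hc0, hcb, hc1⟩ : ∃ c : B, c ≠ ⊥ ∧ c ≤ b ∧ (c ≤ (sSup J)ᶜ ∨ ∃ a ∈ J, c ≤ a) := by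
    by_cases h : b ⊓ sSup J = ⊥
    · refine ⟨b, hb, le_rfl, Or.inl ?_⟩
      rw [← disjoint_iff] at h
      exact h.le_compl_right
    · rw [sSup_eq_iSup'] at h
      obtain ⟨⟨a, ha⟩, h2⟩ := exists_inf_ne_bot h inf_le_right
      refine ⟨b ⊓ a, ?_, inf_le_left, Or.inr ⟨a, ha, inf_le_right⟩⟩
      intro h3
      apply h2
      refine le_bot_iff.1 (le_trans ?_ h3.le)
      exact inf_le_inf_right a inf_le_left
  obtain ⟨d, hd0, hdc, hd1⟩ : ∃ d : B, d ≠ ⊥ ∧ d ≤ c ∧ (d ≤ sInf J ∨ ∃ a ∈ J, d ≤ aᶜ) := by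
    by_cases h : c ⊓ (sInf J)ᶜ = ⊥
    · refine ⟨c, hc0, le_rfl, Or.inl ?_⟩
      rw [← disjoint_iff] at h
      exact disjoint_compl_right_iff.1 h
    · rw [sInf_eq_iInf', compl_iInf] at h
      obtain ⟨⟨a, ha⟩, h2⟩ := exists_inf_ne_bot h inf_le_right
      refine ⟨c ⊓ aᶜ, ?_, inf_le_left, Or.inr ⟨a, ha, inf_le_right⟩⟩
      intro h3
      apply h2
      refine le_bot_iff.1 (le_trans ?_ h3.le)
      exact inf_le_inf_right aᶜ inf_le_left
  refine ⟨d, hd0, hdc.trans hcb, ?_, hd1⟩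
  rcases hc1 with h | ⟨a, ha, h⟩
  · exact Or.inl (hdc.trans h)
  · exact Or.inr ⟨a, ha, hdc.trans h⟩

theorem exists_gen (J : ℕ → Set B) {b : B} (hb : b ≠ ⊥) : ∃ φ : B → Prop, IsGen φ J ∧ φ b := by
  classical
  -- the decreasing sequence
  choose! g hg using fun (i : ℕ) (b : B) (hb : b ≠ ⊥) => h40_step (J i) hb
  let s : ℕ → B := fun n => Nat.rec b (fun i x => g i x) n
  have hs0 : s 0 = b := rfl
  have hss : ∀ n, s (n + 1) = g n (s n) := fun n => rfl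
  have hne : ∀ n, s n ≠ ⊥ := by
    intro n
    induction n with
    | zero => exact hb
    | succ n ih => rw [hss]; exact (hg n _ ih).1
  have hle : ∀ n, s (n + 1) ≤ s n := fun n => by rw [hss]; exact (hg n _ (hne n)).2.1
  have hanti : Antitone s := antitone_nat_of_succ_le hle
  -- the filter
  have hF : Order.IsPFilter {a : B | ∃ n, s n ≤ a} := by
    refine Order.IsPFilter.of_def ⟨⊤, 0, le_top⟩ ?_ ?_
    · rintro x ⟨m, hm⟩ y ⟨n, hn⟩
      refine ⟨s (max m n), ⟨_, le_rfl⟩, ?_, ?_⟩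
      · exact (hanti (le_max_left m n)).trans hm
      · exact (hanti (le_max_right m n)).trans hn
    · rintro x y hxy ⟨m, hm⟩
      exact ⟨m, hm.trans hxy⟩
  let F : Order.PFilter B := hF.toPFilter
  let I : Order.Ideal B := Order.Ideal.principal ⊥
  have hFI : Disjoint (F : Set B) (I : Set B) := by
    rw [Set.disjoint_left]
    rintro a ⟨n, hn⟩ ha
    have h1 : a ≤ ⊥ := ha
    exact hne n (le_bot_iff.1 (hn.trans h1))
  obtain ⟨K, hKp, -, hKF⟩ := DistribLattice.prime_ideal_of_disjoint_filter_ideal hFI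
  have hsK : ∀ n a, s n ≤ a → a ∉ K := by
    intro n a h1 h2
    exact Set.disjoint_left.1 hKF (show a ∈ (F : Set B) from ⟨n, h1⟩) h2
  have htop : (⊤ : B) ∉ K := hsK 0 ⊤ le_top
  have hbot : (⊥ : B) ∈ K := K.bot_mem
  have hinf : ∀ a b, (a ⊓ b ∉ K) ↔ (a ∉ K ∧ b ∉ K) := by
    intro a b
    constructor
    · intro h
      exact ⟨fun h1 => h (K.lower inf_le_left h1), fun h1 => h (K.lower inf_le_right h1)⟩
    · rintro ⟨h1, h2⟩ h3
      rcases hKp.mem_or_mem h3 with h | h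
      · exact h1 h
      · exact h2 h
  have hsup : ∀ a b, (a ⊔ b ∉ K) ↔ (a ∉ K ∨ b ∉ K) := by
    intro a b
    constructor
    · intro h
      by_contra hcon
      push Not at hcon
      exact h (Order.Ideal.sup_mem hcon.1 hcon.2)
    · rintro (h | h) h3
      · exact h (K.lower le_sup_left h3)
      · exact h (K.lower le_sup_right h3)
  have hcompl : ∀ a, (aᶜ ∉ K) ↔ ¬ (a ∉ K) := by
    intro a
    constructor
    · intro h1 h2
      have := (hinf a aᶜ).2 ⟨h2, h1⟩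
      rw [inf_compl_eq_bot] at this
      exact this hbot
    · intro h1 h2
      push Not at h1
      have := Order.Ideal.sup_mem h1 h2
      rw [sup_compl_eq_top] at this
      exact htop this
  have hmono : ∀ a b, a ≤ b → a ∉ K → b ∉ K := fun a b hab h h2 => h (K.lower hab h2)
  refine ⟨fun a => a ∉ K, ⟨htop, fun h => h hbot, hinf, hsup, hcompl, ?_, ?_⟩, hsK 0 b hs0.le⟩
  · intro i
    constructor
    · intro h
      have h1 := (hg i _ (hne i)).2.2.1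
      rw [← hss] at h1
      rcases h1 with h1 | ⟨a, ha, h1⟩
      · exact absurd h ((hcompl _).1 (hsK (i + 1) _ h1))
      · exact ⟨a, ha, hsK (i + 1) _ h1⟩
    · rintro ⟨a, ha, h⟩
      exact hmono _ _ (le_sSup ha) h
  · intro i
    constructor
    · intro h a ha
      exact hmono _ _ (sInf_le ha) h
    · intro h
      have h1 := (hg i _ (hne i)).2.2.2
      rw [← hss] at h1
      rcases h1 with h1 | ⟨a, ha, h1⟩
      · exact hsK (i + 1) _ h1
      · exact absurd (h a ha) ((hcompl _).1 (hsK (i + 1) _ h1))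

theorem exists_gen_trees (J : ℕ → Set B) (T : ℕ → List Bool → B) {b : B} (hb : b ≠ ⊥) :
    ∃ φ : B → Prop, IsGen φ J ∧ φ b ∧
      ∀ n, (φ (nullV (T n)) ↔ nullV (B := Prop) fun σ => φ (T n σ)) := by
  classical
  let ι := ℕ ⊕ ℕ ⊕ (ℕ × ℕ) ⊕ (ℕ × ℕ × Finset (List Bool))
  let W : ι → Set B := fun x => match x with
    | Sum.inl i => J i
    | Sum.inr (Sum.inl n) => {x | ∃ k : ℕ, x = smallV k (T n)}
    | Sum.inr (Sum.inr (Sum.inl (n, k))) =>
        {x | ∃ (m : ℕ) (G : Finset (List Bool)), G.card * 2 ^ k ≤ 2 ^ m ∧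
          x = ⨅ σ : List Bool, ⨅ _ : σ.length = m ∧ σ ∉ G, (T n σ)ᶜ}
    | Sum.inr (Sum.inr (Sum.inr (n, m, G))) =>
        {x | ∃ σ : List Bool, (σ.length = m ∧ σ ∉ G) ∧ x = (T n σ)ᶜ}
  obtain ⟨e, he⟩ := exists_surjective_nat ι
  obtain ⟨φ, hφ, hφb⟩ := exists_gen (fun i => W (e i)) hb
  have hS : ∀ x : ι, φ (sSup (W x)) ↔ ∃ a ∈ W x, φ a := by
    intro x
    obtain ⟨i, rfl⟩ := he x
    exact hφ.sSup i
  have hI : ∀ x : ι, φ (sInf (W x)) ↔ ∀ a ∈ W x, φ a := by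
    intro x
    obtain ⟨i, rfl⟩ := he x
    exact hφ.sInf i
  refine ⟨φ, ⟨hφ.top, hφ.bot, hφ.inf, hφ.sup, hφ.compl, fun i => hS (Sum.inl i),
    fun i => hI (Sum.inl i)⟩, hφb, ?_⟩
  intro n
  have h1 : nullV (T n) = sInf (W (Sum.inr (Sum.inl n))) := by
    rw [nullV_eq]
    apply le_antisymm
    · refine le_sInf ?_
      rintro _ ⟨k, rfl⟩
      exact iInf_le _ k
    · exact le_iInf fun k => sInf_le ⟨k, rfl⟩
  have h2 : ∀ k, smallV k (T n) = sSup (W (Sum.inr (Sum.inr (Sum.inl (n, k))))) := by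
    intro k
    apply le_antisymm
    · refine iSup_le fun m => iSup_le fun G => iSup_le fun h => le_sSup ?_
      exact ⟨m, G, h, rfl⟩
    · refine sSup_le ?_
      rintro _ ⟨m, G, h, rfl⟩
      exact le_iSup_of_le m (le_iSup_of_le G (le_iSup_of_le h le_rfl))
  have h3 : ∀ (m : ℕ) (G : Finset (List Bool)),
      (⨅ σ : List Bool, ⨅ _ : σ.length = m ∧ σ ∉ G, (T n σ)ᶜ) =
        sInf (W (Sum.inr (Sum.inr (Sum.inr (n, m, G))))) := by
    intro m G
    apply le_antisymm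
    · refine le_sInf ?_
      rintro _ ⟨σ, h, rfl⟩
      exact iInf_le_of_le σ (iInf_le_of_le h le_rfl)
    · refine le_iInf fun σ => le_iInf fun h => sInf_le ?_
      exact ⟨σ, h, rfl⟩
  have h4 : φ (nullV (T n)) ↔ ∀ k, ∃ (m : ℕ) (G : Finset (List Bool)),
      G.card * 2 ^ k ≤ 2 ^ m ∧ ∀ σ : List Bool, σ.length = m ∧ σ ∉ G → ¬ φ (T n σ) := by
    rw [h1]
    refine (hI (Sum.inr (Sum.inl n))).trans ?_
    constructor
    · intro h k
      have h5 := h _ ⟨k, rfl⟩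
      rw [h2] at h5
      obtain ⟨_, ⟨m, G, hG, rfl⟩, h6⟩ := (hS (Sum.inr (Sum.inr (Sum.inl (n, k))))).1 h5
      rw [h3] at h6
      have h7 := (hI (Sum.inr (Sum.inr (Sum.inr (n, m, G))))).1 h6
      refine ⟨m, G, hG, fun σ hσ => ?_⟩
      exact (hφ.compl _).1 (h7 _ ⟨σ, hσ, rfl⟩)
    · rintro h _ ⟨k, rfl⟩
      rw [h2]
      obtain ⟨m, G, hG, h5⟩ := h k
      refine (hS (Sum.inr (Sum.inr (Sum.inl (n, k))))).2 ⟨_, ⟨m, G, hG, rfl⟩, ?_⟩
      rw [h3]
      refine (hI (Sum.inr (Sum.inr (Sum.inr (n, m, G))))).2 ?_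
      rintro _ ⟨σ, hσ, rfl⟩
      exact (hφ.compl _).2 (h5 σ hσ)
  rw [h4]
  simp only [nullV, iInf_Prop_eq, iSup_Prop_eq, exists_prop]
  rfl

end Pool.Agent.Helper33.HM
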